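import Mathlib

namespace Pool.Agent.Results.MP_2b78ec_gt.Q1

open Set Metric

/-- Euclidean `n`-space. -/
abbrev E (n : ℕ) : Type := EuclideanSpace ℝ (Fin n)

variable {n : ℕ}

/-- Nonempty compact convex sets; if `b` holds, only those with nonempty interior. -/
def Cls (b : Prop) (K : Set (E n)) : Prop :=
  K.Nonempty ∧ IsCompact K ∧ Convex ℝ K ∧ (b → (interior K).Nonempty)

/-- Orthogonal projection of a set onto `H`. -/
def proj (H : Submodule ℝ (E n)) (K : Set (E n)) : Set (E n) := H.starProjection '' K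

/-- The spherical cylinder with centre `x`, radius `r` in `H` and radius `s` in `Hᗮ`. -/
def cyl (H : Submodule ℝ (E n)) (x : E n) (r s : ℝ) : Set (E n) :=
  {z | ∃ a ∈ H, ∃ b ∈ Hᗮ, dist a x ≤ r ∧ ‖b‖ ≤ s ∧ z = a + b}

lemma mem_cyl {H : Submodule ℝ (E n)} {x z : E n} {r s : ℝ} : z ∈ cyl H x r s ↔
    dist (H.starProjection z) x ≤ r ∧ ‖Hᗮ.starProjection z‖ ≤ s := by
  constructor
  · rintro ⟨a, ha, b, hb, p, q, rfl⟩
    have := (Submodule.starProjection_apply_eq_zero_iff H).2 hb
    have := (Submodule.starProjection_apply_eq_zero_iff Hᗮ).2 (H.le_orthogonal_orthogonal ha)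
    simp [Submodule.starProjection_eq_self_iff.2 ha, Submodule.starProjection_eq_self_iff.2 hb, *]
  · rintro ⟨p, q⟩
    exact ⟨_, H.starProjection_apply_mem z, _, Hᗮ.starProjection_apply_mem z, p, q,
      (H.starProjection_add_starProjection_orthogonal z).symm⟩

lemma cls (b : Prop) {H : Submodule ℝ (E n)} {x : E n} (hx : x ∈ H) {r s : ℝ} (r0 : 0 < r) (s0 : 0 < s) :
    Cls b (cyl H x r s) := by
  have e : cyl H x r s = H.starProjection ⁻¹' closedBall x r ∩ Hᗮ.starProjection ⁻¹' closedBall 0 s := by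
    ext z; simp [mem_cyl]
  have x1 := Submodule.starProjection_eq_self_iff.2 hx
  have x2 := (Submodule.starProjection_apply_eq_zero_iff Hᗮ).2 (H.le_orthogonal_orthogonal hx)
  have i : x ∈ interior (cyl H x r s) := by
    rw [e, mem_interior_iff_mem_nhds]
    exact Filter.inter_mem (H.starProjection.continuous.continuousAt.preimage_mem_nhds
      (by rw [x1]; exact closedBall_mem_nhds _ r0))
      (Hᗮ.starProjection.continuous.continuousAt.preimage_mem_nhds (by rw [x2]; exact closedBall_mem_nhds _ s0))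
  refine ⟨⟨x, interior_subset i⟩, isCompact_of_isClosed_isBounded ?_ ?_, ?_, fun _ => ⟨x, i⟩⟩
  · rw [e]; exact (isClosed_closedBall.preimage (by fun_prop)).inter (isClosed_closedBall.preimage (by fun_prop))
  · refine (isBounded_closedBall (x := x) (r := r + s)).subset ?_
    rintro _ ⟨a, -, b, -, p, q, rfl⟩
    rw [mem_closedBall, dist_eq_norm] at *
    rw [add_sub_right_comm]
    exact (norm_add_le _ _).trans (add_le_add p q)
  · rw [e]
    exact ((convex_closedBall _ _).linear_preimage H.starProjection.toLinearMap).inter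
      ((convex_closedBall _ _).linear_preimage Hᗮ.starProjection.toLinearMap)

lemma ball_sep {H : Submodule ℝ (E n)} {C : Set (E n)} (c : IsCompact C) (v : Convex ℝ C) (ne : C.Nonempty)
    (hH : C ⊆ H) {p : E n} (hp : p ∈ H) (h : p ∉ C) :
    ∃ x ∈ H, ∃ r > 0, C ⊆ closedBall x r ∧ r < dist p x := by
  obtain ⟨q, hq, m⟩ := exists_norm_eq_iInf_of_complete_convex ne c.isComplete v p
  rw [norm_eq_iInf_iff_real_inner_le_zero v hq] at m
  obtain ⟨M, hM⟩ := c.isBounded.subset_closedBall q
  have d : 0 < ‖p - q‖ := norm_pos_iff.2 (sub_ne_zero.2 fun e => h (e ▸ hq))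
  set t := M ^ 2 / ‖p - q‖ ^ 2 + 1 with ht
  have t0 : 0 < t := by positivity
  have e : M ^ 2 ≤ t * ‖p - q‖ ^ 2 := by rw [ht]; field_simp; nlinarith
  refine ⟨q - t • (p - q), H.sub_mem (hH hq) (H.smul_mem _ (H.sub_mem hp (hH hq))),
    (t + 1 / 2) * ‖p - q‖, by positivity, fun y hy => ?_, ?_⟩
  · have a := mem_closedBall_iff_norm.1 (hM hy)
    rw [mem_closedBall_iff_norm, show y - (q - t • (p - q)) = t • (p - q) + (y - q) by abel]
    refine abs_le_of_sq_le_sq' ?_ (by positivity) |>.2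
    rw [norm_add_sq_real, norm_smul, real_inner_smul_left, Real.norm_of_nonneg t0.le]
    nlinarith [mul_nonneg t0.le (neg_nonneg.2 (m y hy)), norm_nonneg (y - q)]
  · rw [dist_eq_norm, show p - (q - t • (p - q)) = (t + 1) • (p - q) by module, norm_smul,
      Real.norm_of_nonneg (by positivity)]
    nlinarith

theorem result (n : ℕ) (H : Submodule ℝ (E n)) (b : Prop) (S : Set (E n) → Set (E n))
    (maps : ∀ K, Cls b K → Cls b (S K))
    (mono : ∀ K L, Cls b K → Cls b L → K ⊆ L → S K ⊆ S L)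
    (fix : ∀ x ∈ H, ∀ r > 0, ∀ s > 0, S (cyl H x r s) = cyl H x r s) :
    ∀ K, Cls b K → proj H (S K) = proj H K := by
  have up (K) (hK : Cls b K) : proj H (S K) ⊆ proj H K := by
    rintro _ ⟨z, hz, rfl⟩
    by_contra h
    obtain ⟨x, hx, r, r0, p, q⟩ := ball_sep (H := H) (C := proj H K) (hK.2.1.image (by fun_prop))
      (hK.2.2.1.linear_image H.starProjection.toLinearMap) (hK.1.image _)
      (by rintro _ ⟨y, -, rfl⟩; exact H.starProjection_apply_mem y) (H.starProjection_apply_mem z) h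
    obtain ⟨s, s0, hs⟩ := hK.2.1.isBounded.subset_closedBall_lt 0 0
    have := mono K _ hK (cls b hx r0 s0) (fun y hy => mem_cyl.2 ⟨p ⟨y, hy, rfl⟩,
      (Hᗮ.norm_starProjection_apply_le y).trans (by simpa using hs hy)⟩) hz
    rw [fix x hx r r0 s s0] at this
    exact q.not_ge (mem_cyl.1 this).1
  refine fun K hK => (up K hK).antisymm ?_
  rintro _ ⟨z, hz, rfl⟩
  have c : IsClosed (proj H (S K)) := ((maps K hK).2.1.image (by fun_prop)).isClosed
  refine c.closure_subset (Metric.mem_closure_iff.2 fun ε e => ?_)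
  have k : Cls b (K ∩ closedBall z (ε / 2)) := by
    refine ⟨⟨z, hz, mem_closedBall_self (by positivity)⟩, hK.2.1.inter_right isClosed_closedBall,
      hK.2.2.1.inter (convex_closedBall _ _), fun h => ?_⟩
    have : z ∈ closure (interior K) := by
      rw [hK.2.2.1.closure_interior_eq_closure_of_nonempty_interior (hK.2.2.2 h)]
      exact subset_closure hz
    obtain ⟨y, p, q⟩ := Metric.mem_closure_iff.1 this (ε / 2) (by positivity)
    refine ⟨y, ?_⟩
    rw [interior_inter]
    exact ⟨p, ball_subset_interior_closedBall (mem_ball'.2 q)⟩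
  obtain ⟨y, hy⟩ := (maps _ k).1
  obtain ⟨w, ⟨-, p⟩, q⟩ := up _ k ⟨y, hy, rfl⟩
  refine ⟨_, ⟨y, mono _ _ k hK inter_subset_left hy, rfl⟩, ?_⟩
  rw [← q, dist_eq_norm, ← map_sub]
  refine (H.norm_starProjection_apply_le _).trans_lt ?_
  rw [← dist_eq_norm, dist_comm]
  exact (mem_closedBall.1 p).trans_lt (by linarith)

end Pool.Agent.Results.MP_2b78ec_gt.Q1
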